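import Mathlib

/-!
# Spectral triples, Dixmier traces, the noncommutative integral (definitions)
-/

set_option autoImplicit false

open Filter Topology
open scoped BoundedContinuousFunction

namespace Pool.Agent.H760Z.Dix

variable {H : Type} [NormedAddCommGroup H] [InnerProductSpace ℂ H] [CompleteSpace H]

/-- Singular values, indexed from `0`: `sv T k = μ_{k+1}(T)` is the distance from `T` to the
bounded operators of rank at most `k`.  For compact `T` this is the `(k+1)`-st eigenvalue of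
`|T|`, counted with multiplicity in decreasing order. -/
noncomputable def sv (T : H →L[ℂ] H) (k : ℕ) : ℝ :=
  sInf {c : ℝ | ∃ R : H →L[ℂ] H, (R : H →ₗ[ℂ] H).rank ≤ k ∧ c = ‖T - R‖}

/-- The sequence `(1 / log (1 + N)) ∑_{k=1}^{N} μ_k(T)`, `N = 1, 2, …` (here `N = m + 1`). -/
noncomputable def logMean (T : H →L[ℂ] H) (m : ℕ) : ℝ :=
  (∑ k ∈ Finset.range (m + 1), sv T k) / Real.log (1 + ((m + 1 : ℕ) : ℝ))

/-- Membership in the Dixmier-Macaev ideal `M_{1,∞}`. -/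
def InM1inf (T : H →L[ℂ] H) : Prop :=
  IsCompactOperator T ∧ BddAbove (Set.range (logMean T))

/-- Trace class: compact with summable singular values. -/
def IsTraceClass (T : H →L[ℂ] H) : Prop :=
  IsCompactOperator T ∧ Summable (sv T)

/-- `ℓ^∞`: bounded real sequences (`ℕ` carries the discrete topology). -/
abbrev Linf : Type := ℕ →ᵇ ℝ

/-- A generalised limit: a positive linear functional on `ℓ^∞` that agrees with the limit on
convergent sequences. -/
structure IsGenLimit (ω : Linf →ₗ[ℝ] ℝ) : Prop where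
  nonneg : ∀ a : Linf, (∀ i, 0 ≤ a i) → 0 ≤ ω a
  lim : ∀ (a : Linf) (c : ℝ), Tendsto (fun i => a i) atTop (𝓝 c) → ω a = c

/-- Dilation invariance: `ω (a₀,…,a₀,a₁,…,a₁,…) = ω (a₀,a₁,…)` (each term repeated `n` times),
for every `n ≥ 1`. -/
def IsDilationInvariant (ω : Linf →ₗ[ℝ] ℝ) : Prop :=
  ∀ n : ℕ, 1 ≤ n → ∀ a b : Linf, (∀ i, b i = a (i / n)) → ω b = ω a

open Classical in
/-- `Tr_ω(T) = ω(logMean T)` for positive `T ∈ M_{1,∞}` (junk value `0` if the sequence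
`logMean T` is unbounded). -/
noncomputable def dixPos (ω : Linf →ₗ[ℝ] ℝ) (T : H →L[ℂ] H) : ℝ :=
  if h : ∃ a : Linf, ∀ m, a m = logMean T m then ω h.choose else 0

/-- `Re T = (T + T*)/2` in a C*-algebra. -/
noncomputable def rePart {A : Type} [CStarAlgebra A] (T : A) : A := realPart T

/-- `Im T = (T - T*)/(2i)` in a C*-algebra. -/
noncomputable def imPart {A : Type} [CStarAlgebra A] (T : A) : A := imaginaryPart T

/-- The positive part `T₊` of a self-adjoint element of a C*-algebra. -/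
noncomputable def posP {A : Type} [CStarAlgebra A] (T : A) : A := T⁺

/-- The negative part `T₋` of a self-adjoint element of a C*-algebra. -/
noncomputable def negP {A : Type} [CStarAlgebra A] (T : A) : A := T⁻

/-- `Tr_ω(T) = Tr_ω(T₊) - Tr_ω(T₋)` for self-adjoint `T`. -/
noncomputable def dixSA (ω : Linf →ₗ[ℝ] ℝ) (T : H →L[ℂ] H) : ℝ :=
  dixPos ω (posP T) - dixPos ω (negP T)

/-- The Dixmier trace `Tr_ω`, extended from the positive cone through the decomposition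
`T = (Re T)₊ - (Re T)₋ + i ((Im T)₊ - (Im T)₋)`. -/
noncomputable def dixTrace (ω : Linf →ₗ[ℝ] ℝ) (T : H →L[ℂ] H) : ℂ :=
  (dixSA ω (rePart T) : ℂ) + Complex.I * (dixSA ω (imPart T) : ℂ)

/-- `B = ⟨D⟩⁻¹ = (1 + D²)^{-1/2}`: `B` is a positive bounded operator, `B²` maps `H` into the domain
of `D²`, and `(1 + D²) B² = 1`.  (For self-adjoint `D` this determines `B`.) -/
def IsBracketInv (D : H →ₗ.[ℂ] H) (B : H →L[ℂ] H) : Prop :=
  0 ≤ B ∧ ∀ x : H, ∃ (h₁ : B (B x) ∈ D.domain) (h₂ : D ⟨B (B x), h₁⟩ ∈ D.domain),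
    B (B x) + D ⟨D ⟨B (B x), h₁⟩, h₂⟩ = x

/-- The power `B ^ p` of a positive operator, by the continuous functional calculus; for
`B = ⟨D⟩⁻¹` this is `⟨D⟩^{-p}`. -/
noncomputable def opPow (B : H →L[ℂ] H) (p : ℝ) : H →L[ℂ] H := CFC.rpow B p

/-- The noncommutative integral `Φ_ω(S) = Tr_ω(S ⟨D⟩^{-n})`, where `B = ⟨D⟩⁻¹`. -/
noncomputable def ncIntegral (ω : Linf →ₗ[ℝ] ℝ) (B : H →L[ℂ] H) (n : ℝ) (S : H →L[ℂ] H) : ℂ :=
  dixTrace ω (S * opPow B n)

/-- `a` preserves the domain of `D` and the commutator `[D, a]` is bounded on it. -/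
def BoundedCommutator (D : H →ₗ.[ℂ] H) (a : H →L[ℂ] H) : Prop :=
  ∃ C : ℝ, ∀ x : D.domain, ∃ h : a x ∈ D.domain, ‖D ⟨a x, h⟩ - a (D x)‖ ≤ C * ‖(x : H)‖

/-- `(A, H, D)` is a spectral triple, `B = ⟨D⟩⁻¹`, `n` is the smallest value such that `⟨D⟩^{-p}` is
trace class for all `p > n`, and `⟨D⟩^{-n} ∈ M_{1,∞}`. -/
structure IsSpectralTriple (A : StarSubalgebra ℂ (H →L[ℂ] H)) (D : H →ₗ.[ℂ] H)
    (B : H →L[ℂ] H) (n : ℝ) : Prop where
  countably_generated : ∃ s : Set (H →L[ℂ] H), s.Countable ∧ A = StarAlgebra.adjoin ℂ s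
  selfAdjoint : IsSelfAdjoint D
  commutator : ∀ a ∈ A, BoundedCommutator D a
  bracket : IsBracketInv D B
  compact : IsCompactOperator B
  dimension : IsLeast {s : ℝ | 0 ≤ s ∧ ∀ p : ℝ, s < p → IsTraceClass (opPow B p)} n
  macaev : InM1inf (opPow B n)

/-- The bicommutant `A''`. -/
def bicommutant (A : StarSubalgebra ℂ (H →L[ℂ] H)) : Set (H →L[ℂ] H) :=
  Set.centralizer (Set.centralizer (A : Set (H →L[ℂ] H)))

/-- `ρ` is normal on `N`: `ρ(S) = sup ρ(S_α)` for every increasing net of positive `S_α ∈ N`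
converging strongly to `S ∈ N`. -/
def IsNormalOn (N : Set (H →L[ℂ] H)) (ρ : (H →L[ℂ] H) → ℂ) : Prop :=
  ∀ (ι : Type) [Preorder ι] [IsDirectedOrder ι] [Nonempty ι] (S : ι → (H →L[ℂ] H)) (T : H →L[ℂ] H),
    (∀ α, S α ∈ N) → T ∈ N → (∀ α, 0 ≤ S α) → Monotone S →
    (∀ x, Tendsto (fun α => S α x) atTop (𝓝 (T x))) →
    IsLUB (Set.range fun α => (ρ (S α)).re) (ρ T).re

/-- `H` carries a spectral triple `(A, H, D)` (with `B = ⟨D⟩⁻¹`, dimension `n`,
`⟨D⟩^{-n} ∈ M_{1,∞}`) whose bicommutant `A''` is commutative and contains no nonzero finite rank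
operator, and such that the functional `Φ_ω(S) = Tr_ω(S ⟨D⟩^{-n})` is not normal on `A''` for some
dilation invariant generalised limit `ω` (a Dixmier trace), and indeed for every generalised
limit `ω`. -/
def CarriesNonNormalTriple (H : Type) [NormedAddCommGroup H] [InnerProductSpace ℂ H]
    [CompleteSpace H] : Prop :=
  ∃ (A : StarSubalgebra ℂ (H →L[ℂ] H)) (D : H →ₗ.[ℂ] H) (B : H →L[ℂ] H) (n : ℝ),
    IsSpectralTriple A D B n ∧
    (∀ S ∈ bicommutant A, ∀ T ∈ bicommutant A, S * T = T * S) ∧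
    (∀ T ∈ bicommutant A, FiniteDimensional ℂ (LinearMap.range (T : H →ₗ[ℂ] H)) → T = 0) ∧
    (∃ ω : Linf →ₗ[ℝ] ℝ, IsGenLimit ω ∧ IsDilationInvariant ω ∧
      ¬ IsNormalOn (bicommutant A) (ncIntegral ω B n)) ∧
    ∀ ω : Linf →ₗ[ℝ] ℝ, IsGenLimit ω → ¬ IsNormalOn (bicommutant A) (ncIntegral ω B n)

end Pool.Agent.H760Z.Dix
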