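import Pool.Agent.H760Z.Dix.Defs

/-!
# Diagonal operators on `ℓ²(ι)` and their singular values
-/

set_option autoImplicit false

open Filter Topology
open scoped ENNReal BoundedContinuousFunction InnerProductSpace

namespace Pool.Agent.H760Z.Dix

/-- `ℓ²(ι)` -/
abbrev L2 (ι : Type) : Type := lp (fun _ : ι => ℂ) 2

section general

variable {ι : Type}

lemma memlp_of_le {f : ι → ℂ} (x : L2 ι) (C : ℝ) (h : ∀ i, ‖f i‖ ≤ C * ‖x i‖) :
    Memℓp f 2 := by
  have hx := lp.memℓp x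
  refine memℓp_gen ?_
  have h2 := (hx.summable (by norm_num)).mul_left (|C| ^ (2 : ℝ≥0∞).toReal)
  refine Summable.of_nonneg_of_le (fun i => by positivity) (fun i => ?_) h2
  rw [← Real.mul_rpow (abs_nonneg _) (norm_nonneg _)]
  apply Real.rpow_le_rpow (by positivity) _ (by norm_num)
  exact (h i).trans (mul_le_mul_of_nonneg_right (le_abs_self _) (norm_nonneg _))

lemma norm_le_of_le {x y : L2 ι} {C : ℝ} (hC : 0 ≤ C)
    (h : ∀ i, ‖x i‖ ≤ C * ‖y i‖) : ‖x‖ ≤ C * ‖y‖ := by
  have hx := lp.norm_rpow_eq_tsum (p := 2) (by norm_num) x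
  have hy := lp.norm_rpow_eq_tsum (p := 2) (by norm_num) y
  have hsx := (lp.memℓp x).summable (by norm_num)
  have hsy := (lp.memℓp y).summable (by norm_num)
  have e2 : (2 : ENNReal).toReal = 2 := by norm_num
  rw [e2] at hx hy hsx hsy
  have h1 : ‖x‖ ^ (2 : ℝ) ≤ (C * ‖y‖) ^ (2 : ℝ) := by
    rw [hx, Real.mul_rpow hC (norm_nonneg _), hy, ← tsum_mul_left]
    apply hsx.tsum_le_tsum _ (hsy.mul_left _)
    intro i
    rw [← Real.mul_rpow hC (norm_nonneg _)]
    exact Real.rpow_le_rpow (norm_nonneg _) (h i) (by norm_num)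
  exact (Real.rpow_le_rpow_iff (norm_nonneg _) (by positivity) (by norm_num)).mp h1

lemma inner_eq_tsum' (x y : L2 ι) : ⟪x, y⟫_ℂ = ∑' i, (starRingEnd ℂ) (x i) * y i := by
  rw [lp.inner_eq_tsum]
  congr 1
  ext i
  simp [mul_comm]

variable [TopologicalSpace ι]

/-- diagonal operator as a linear map -/
noncomputable def diagL (d : ι →ᵇ ℂ) : L2 ι →ₗ[ℂ] L2 ι where
  toFun x := ⟨fun i => d i * x i, memlp_of_le x ‖d‖ (fun i => by
    rw [norm_mul]; exact mul_le_mul_of_nonneg_right (d.norm_coe_le_norm i) (norm_nonneg _))⟩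
  map_add' x y := by
    ext i
    simp only [lp.coeFn_add, Pi.add_apply, mul_add]
  map_smul' r x := by
    ext i
    simp
    ring

lemma diagL_apply (d : ι →ᵇ ℂ) (x : L2 ι) (i : ι) : (diagL d x : ι → ℂ) i = d i * x i := rfl

/-- diagonal operator -/
noncomputable def diag (d : ι →ᵇ ℂ) : L2 ι →L[ℂ] L2 ι :=
  (diagL d).mkContinuous ‖d‖ (fun x => norm_le_of_le (norm_nonneg _) (fun i => by
    rw [diagL_apply, norm_mul]
    exact mul_le_mul_of_nonneg_right (d.norm_coe_le_norm i) (norm_nonneg _)))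

@[simp] lemma diag_apply (d : ι →ᵇ ℂ) (x : L2 ι) (i : ι) : (diag d x : ι → ℂ) i = d i * x i := rfl

lemma norm_diag_le (d : ι →ᵇ ℂ) {C : ℝ} (hC : 0 ≤ C) (h : ∀ i, ‖d i‖ ≤ C) : ‖diag d‖ ≤ C := by
  refine ContinuousLinearMap.opNorm_le_bound _ hC (fun x => norm_le_of_le hC (fun i => ?_))
  rw [diag_apply, norm_mul]
  exact mul_le_mul_of_nonneg_right (h i) (norm_nonneg _)

lemma diag_star (d : ι →ᵇ ℂ) : diag (star d) = star (diag d) := by
  rw [ContinuousLinearMap.star_eq_adjoint, ContinuousLinearMap.eq_adjoint_iff]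
  intro x y
  rw [inner_eq_tsum', inner_eq_tsum']
  congr 1
  ext i
  simp
  ring

/-- diagonal operators as a star algebra homomorphism -/
noncomputable def diagHom : (ι →ᵇ ℂ) →⋆ₐ[ℂ] (L2 ι →L[ℂ] L2 ι) where
  toFun := diag
  map_one' := by ext x i; simp
  map_mul' a b := by ext x i; simp [mul_assoc]
  map_zero' := by ext x i; simp
  map_add' a b := by ext x i; simp [add_mul]
  commutes' r := by
    ext x i
    simp [Algebra.algebraMap_eq_smul_one]
  map_star' := diag_star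

lemma diagHom_apply (d : ι →ᵇ ℂ) : diagHom d = diag d := rfl

lemma diag_mul (a b : ι →ᵇ ℂ) : diag (a * b) = diag a * diag b := map_mul diagHom a b

lemma diag_sub (a b : ι →ᵇ ℂ) : diag (a - b) = diag a - diag b := map_sub diagHom a b

lemma continuous_diagHom : Continuous (diagHom : (ι →ᵇ ℂ) → (L2 ι →L[ℂ] L2 ι)) := by
  refine AddMonoidHomClass.continuous_of_bound (diagHom (ι := ι)) 1 (fun d => ?_)
  rw [one_mul, diagHom_apply]
  exact norm_diag_le d (norm_nonneg _) d.norm_coe_le_norm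

/-- evaluation -/
noncomputable def evalHom (i : ι) : (ι →ᵇ ℂ) →⋆ₐ[ℂ] ℂ where
  toFun d := d i
  map_one' := rfl
  map_mul' _ _ := rfl
  map_zero' := rfl
  map_add' _ _ := rfl
  commutes' _ := rfl
  map_star' _ := rfl

lemma diag_nonneg (d : ι →ᵇ ℂ) (g : ι → ℝ) (hd : ∀ i, d i = g i) (hg : ∀ i, 0 ≤ g i) :
    0 ≤ diag d := by
  rw [ContinuousLinearMap.nonneg_iff_isPositive, ContinuousLinearMap.isPositive_iff_complex]
  intro x
  have h1 : ⟪diag d x, x⟫_ℂ = ((∑' i, g i * ‖x i‖ ^ 2 : ℝ) : ℂ) := by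
    rw [inner_eq_tsum', Complex.ofReal_tsum]
    congr 1
    ext i
    rw [diag_apply, hd, map_mul, Complex.conj_ofReal, mul_assoc, Complex.conj_mul']
    push_cast
    ring
  rw [h1]
  refine ⟨by simp, ?_⟩
  rw [RCLike.re_to_complex, Complex.ofReal_re]
  exact tsum_nonneg (fun i => mul_nonneg (hg i) (by positivity))

lemma opPow_map {H : Type} [NormedAddCommGroup H] [InnerProductSpace ℂ H] [CompleteSpace H]
    {A : Type} [CStarAlgebra A] {κ : Type} (φ : A →⋆ₐ[ℂ] (H →L[ℂ] H)) (ψ : κ → A →⋆ₐ[ℂ] ℂ)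
    (hφ : Continuous φ)
    (hsep : ∀ x y, (∀ i, ψ i x = ψ i y) → x = y) (a b : A) (g : κ → ℝ) (p : ℝ) (hp : 0 < p)
    (ha : ∀ i, ψ i a = g i) (hb : ∀ i, ψ i b = (g i ^ p : ℝ)) (hpos : 0 ≤ φ a) :
    opPow (φ a) p = φ b := by
  have hsa : IsSelfAdjoint a := by
    rw [IsSelfAdjoint]
    apply hsep
    intro i
    rw [map_star, ha]
    simp
  have hf : Continuous (fun x : ℝ => x ^ p) := Real.continuous_rpow_const hp.le
  have h1 := StarAlgHom.map_cfc φ (fun x : ℝ => x ^ p) a hf.continuousOn hφ hsa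
    (hsa.map φ)
  rw [opPow, CFC.rpow_eq_pow, CFC.rpow_eq_cfc_real hpos, ← h1]
  congr 1
  apply hsep
  intro i
  have h2 := StarAlgHom.map_cfc (ψ i) (fun x : ℝ => x ^ p) a hf.continuousOn
    (map_continuous (ψ i)) hsa (hsa.map (ψ i))
  have h3 : ψ i a = algebraMap ℝ ℂ (g i) := ha i
  rw [h3, cfc_algebraMap] at h2
  rw [hb]
  exact h2

lemma opPow_diag (d e : ι →ᵇ ℂ) (g : ι → ℝ) (hd : ∀ i, d i = g i) (hg : ∀ i, 0 ≤ g i) (p : ℝ)
    (hp : 0 < p) (he : ∀ i, e i = (g i ^ p : ℝ)) : opPow (diag d) p = diag e :=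
  opPow_map (diagHom (ι := ι)) evalHom continuous_diagHom (fun x y h => by ext i; exact h i) d e g p hp hd he
    (diag_nonneg d g hd hg)

end general

section sv

variable {H : Type} [NormedAddCommGroup H] [InnerProductSpace ℂ H] [CompleteSpace H]

omit [CompleteSpace H] in
lemma sv_set_nonempty (T : H →L[ℂ] H) (k : ℕ) :
    {c : ℝ | ∃ R : H →L[ℂ] H, (R : H →ₗ[ℂ] H).rank ≤ k ∧ c = ‖T - R‖}.Nonempty :=
  ⟨‖T - 0‖, 0, by simp, rfl⟩

omit [CompleteSpace H] in
lemma sv_set_bdd (T : H →L[ℂ] H) (k : ℕ) :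
    BddBelow {c : ℝ | ∃ R : H →L[ℂ] H, (R : H →ₗ[ℂ] H).rank ≤ k ∧ c = ‖T - R‖} :=
  ⟨0, by rintro c ⟨R, -, rfl⟩; exact norm_nonneg _⟩

omit [CompleteSpace H] in
lemma sv_nonneg (T : H →L[ℂ] H) (k : ℕ) : 0 ≤ sv T k :=
  le_csInf (sv_set_nonempty T k) (by rintro c ⟨R, -, rfl⟩; exact norm_nonneg _)

omit [CompleteSpace H] in
lemma sv_le (T R : H →L[ℂ] H) (k : ℕ) (hR : (R : H →ₗ[ℂ] H).rank ≤ k) : sv T k ≤ ‖T - R‖ :=
  csInf_le (sv_set_bdd T k) ⟨R, hR, rfl⟩

omit [CompleteSpace H] in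
lemma sv_zero (k : ℕ) : sv (0 : H →L[ℂ] H) k = 0 :=
  le_antisymm (by simpa using sv_le (0 : H →L[ℂ] H) 0 k (by simp)) (sv_nonneg _ _)

omit [CompleteSpace H] in
lemma le_sv (T : H →L[ℂ] H) (k : ℕ) (V : Submodule ℂ H) (hV : (k : Cardinal) < Module.rank ℂ V)
    (c : ℝ) (hc : ∀ x ∈ V, c * ‖x‖ ≤ ‖T x‖) : c ≤ sv T k := by
  refine le_csInf (sv_set_nonempty T k) ?_
  rintro _ ⟨R, hR, rfl⟩
  -- the restriction of `R` to `V` has a kernel
  have hker : ∃ x ∈ V, x ≠ 0 ∧ R x = 0 := by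
    by_contra hcon
    push Not at hcon
    let f : V →ₗ[ℂ] LinearMap.range (R : H →ₗ[ℂ] H) :=
      (R : H →ₗ[ℂ] H).rangeRestrict.comp V.subtype
    have hinj : Function.Injective f := by
      rw [injective_iff_map_eq_zero]
      intro x hx
      by_contra hne
      apply hcon x x.2 (fun h => hne (Subtype.ext h))
      exact congrArg Subtype.val hx
    have := LinearMap.rank_le_of_injective f hinj
    exact absurd (lt_of_lt_of_le hV (this.trans hR)) (lt_irrefl _)
  obtain ⟨x, hxV, hx0, hRx⟩ := hker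
  have h1 := hc x hxV
  have h2 : ‖T x‖ ≤ ‖T - R‖ * ‖x‖ := by
    have := (T - R).le_opNorm x
    rwa [sub_apply, hRx, sub_zero] at this
  exact le_of_mul_le_mul_right (h1.trans h2) (norm_pos_iff.mpr hx0)

end sv

section diagsv

variable {ι : Type} [TopologicalSpace ι] [DiscreteTopology ι] [DecidableEq ι]

/-- indicator of a set as a bounded function -/
noncomputable def ind (p : ι → Prop) [DecidablePred p] : ι →ᵇ ℂ :=
  BoundedContinuousFunction.ofNormedAddCommGroupDiscrete (fun i => if p i then 1 else 0) 1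
    (fun i => by split_ifs <;> simp)

omit [DecidableEq ι] in
@[simp] lemma ind_apply (p : ι → Prop) [DecidablePred p] (i : ι) :
    ind p i = if p i then 1 else 0 := rfl

/-- span of finitely many basis vectors -/
noncomputable def spanF (F : Finset ι) : Submodule ℂ (L2 ι) :=
  Submodule.span ℂ (Set.range fun i : F => (lp.single 2 (i : ι) (1 : ℂ) : L2 ι))

omit [TopologicalSpace ι] [DiscreteTopology ι] in
lemma rank_spanF (F : Finset ι) : Module.rank ℂ (spanF F) = F.card := by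
  have hli : LinearIndependent ℂ (fun i : F => (lp.single 2 (i : ι) (1 : ℂ) : L2 ι)) := by
    rw [Fintype.linearIndependent_iff]
    intro g hg i
    have := congrArg (fun x : L2 ι => x (i : ι)) hg
    simp only [lp.coeFn_sum, Finset.sum_apply, lp.coeFn_smul, Pi.smul_apply, lp.single_apply,
      lp.coeFn_zero, Pi.zero_apply] at this
    rw [Finset.sum_eq_single i] at this
    · simpa using this
    · intro j _ hj
      rw [Pi.single_eq_of_ne (fun h => hj (Subtype.ext h).symm)]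
      simp
    · simp
  rw [spanF, rank_span hli, Cardinal.mk_range_eq _ hli.injective]
  simp

omit [TopologicalSpace ι] [DiscreteTopology ι] in
lemma mem_spanF (F : Finset ι) (x : L2 ι) : x ∈ spanF F ↔ ∀ i, i ∉ F → x i = 0 := by
  constructor
  · intro hx
    induction hx using Submodule.span_induction with
    | mem x hx =>
      obtain ⟨j, rfl⟩ := hx
      intro i hi
      simp only [lp.single_apply]
      rw [Pi.single_eq_of_ne]
      rintro rfl
      exact hi j.2
    | zero => intro i _; rfl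
    | add x y _ _ hx hy => intro i hi; simp [hx i hi, hy i hi]
    | smul a x _ hx => intro i hi; simp [hx i hi]
  · intro hx
    have : x = ∑ j : F, x j • (lp.single 2 (j : ι) (1 : ℂ) : L2 ι) := by
      ext i
      simp only [lp.coeFn_sum, Finset.sum_apply, lp.coeFn_smul, Pi.smul_apply, lp.single_apply]
      by_cases hi : i ∈ F
      · rw [Finset.sum_eq_single (⟨i, hi⟩ : F)]
        · simp
        · intro j _ hj
          rw [Pi.single_eq_of_ne (fun h => hj (Subtype.ext h.symm))]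
          simp
        · simp
      · rw [hx i hi, Finset.sum_eq_zero]
        intro j _
        rw [Pi.single_eq_of_ne]
        · simp
        · rintro rfl
          exact hi j.2
    rw [this]
    exact Submodule.sum_mem _ (fun j _ => Submodule.smul_mem _ _ (Submodule.subset_span ⟨j, rfl⟩))

lemma rank_diag_trunc (d : ι →ᵇ ℂ) (F : Finset ι) :
    (diag (ind (· ∈ F) * d) : L2 ι →ₗ[ℂ] L2 ι).rank ≤ F.card := by
  rw [← rank_spanF]
  apply Submodule.rank_mono
  rintro _ ⟨x, rfl⟩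
  rw [mem_spanF]
  intro i hi
  simp [hi]

lemma norm_diag_sub_trunc (d : ι →ᵇ ℂ) (F : Finset ι) {c : ℝ} (hc : 0 ≤ c)
    (h : ∀ i, i ∉ F → ‖d i‖ ≤ c) : ‖diag d - diag (ind (· ∈ F) * d)‖ ≤ c := by
  rw [← diag_sub]
  apply norm_diag_le _ hc
  intro i
  by_cases hi : i ∈ F
  · simp [hi, hc]
  · simp [hi, h i hi]

lemma sv_diag_le (d : ι →ᵇ ℂ) (F : Finset ι) (k : ℕ) (hF : F.card ≤ k) {c : ℝ} (hc : 0 ≤ c)
    (h : ∀ i, i ∉ F → ‖d i‖ ≤ c) : sv (diag d) k ≤ c :=
  (sv_le _ _ k ((rank_diag_trunc d F).trans (by exact_mod_cast hF))).trans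
    (norm_diag_sub_trunc d F hc h)

omit [DiscreteTopology ι] in
lemma le_sv_diag (d : ι →ᵇ ℂ) (F : Finset ι) (k : ℕ) (hF : k < F.card) {c : ℝ} (hc : 0 < c)
    (h : ∀ i, i ∈ F → c ≤ ‖d i‖) : c ≤ sv (diag d) k := by
  apply le_sv _ k (spanF F) (by rw [rank_spanF]; exact_mod_cast hF)
  intro x hx
  rw [mem_spanF] at hx
  have : ‖x‖ ≤ c⁻¹ * ‖diag d x‖ := by
    apply norm_le_of_le (by positivity)
    intro i
    by_cases hi : i ∈ F
    · rw [diag_apply, norm_mul, ← mul_assoc]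
      have : 1 ≤ c⁻¹ * ‖d i‖ := by
        rw [← div_eq_inv_mul, le_div_iff₀ hc, one_mul]
        exact h i hi
      nlinarith [norm_nonneg (x i)]
    · rw [hx i hi, norm_zero]
      positivity
  calc c * ‖x‖ ≤ c * (c⁻¹ * ‖diag d x‖) := mul_le_mul_of_nonneg_left this hc.le
    _ = ‖diag d x‖ := by field_simp

lemma isCompact_diag (d : ι →ᵇ ℂ)
    (h : ∀ ε : ℝ, 0 < ε → ∃ F : Finset ι, ∀ i, i ∉ F → ‖d i‖ ≤ ε) :
    IsCompactOperator (diag d) := by
  have hfin : ∀ F : Finset ι, IsCompactOperator (diag (ind (· ∈ F) * d)) := by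
    intro F
    have hrange : ∀ x, diag (ind (· ∈ F) * d) x ∈ spanF F := by
      intro x
      rw [mem_spanF]
      intro i hi
      simp [hi]
    have : FiniteDimensional ℂ (spanF F) := FiniteDimensional.span_of_finite ℂ (Set.finite_range _)
    let g : L2 ι →L[ℂ] spanF F := (diag (ind (· ∈ F) * d)).codRestrict _ hrange
    have hg : diag (ind (· ∈ F) * d) = (spanF F).subtypeL ∘L g := by
      ext x; rfl
    have hgc : IsCompactOperator g := by
      have : ProperSpace (spanF F) := FiniteDimensional.proper ℂ _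
      refine (isCompactOperator_iff_exists_mem_nhds_isCompact_closure_image g).mpr ?_
      refine ⟨Metric.ball 0 1, Metric.ball_mem_nhds _ one_pos, ?_⟩
      apply Metric.isCompact_of_isClosed_isBounded isClosed_closure
      apply Bornology.IsBounded.closure
      exact g.lipschitz.isBounded_image Metric.isBounded_ball
    rw [hg]
    exact IsCompactOperator.clm_comp hgc (spanF F).subtypeL
  have hcl : IsClosed {T : L2 ι →L[ℂ] L2 ι | IsCompactOperator T} := isClosed_setOfPred_isCompactOperator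
  have : diag d ∈ closure {T : L2 ι →L[ℂ] L2 ι | IsCompactOperator T} := by
    rw [Metric.mem_closure_iff]
    intro ε hε
    obtain ⟨F, hF⟩ := h (ε / 2) (by positivity)
    refine ⟨_, hfin F, ?_⟩
    rw [dist_eq_norm]
    exact lt_of_le_of_lt (norm_diag_sub_trunc d F (by positivity) hF) (by linarith)
  rwa [hcl.closure_eq] at this

end diagsv

end Pool.Agent.H760Z.Dix
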