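import Pool.Agent.H760Z.Dix.Defs

/-!
# Existence of a dilation invariant generalised limit
-/

set_option autoImplicit false

open Filter Topology Finset
open scoped ENNReal

namespace Pool.Agent.H760Z.Dix

/-- harmonic weighted sums -/
noncomputable def hs (a : ℕ → ℝ) (N : ℕ) : ℝ := ∑ i ∈ range N, a i / (i + 1)

/-- harmonic numbers -/
noncomputable def hn (N : ℕ) : ℝ := ∑ i ∈ range N, (1 : ℝ) / (i + 1)

lemma hn_tendsto : Tendsto hn atTop atTop := Real.tendsto_sum_range_one_div_nat_succ_atTop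

lemma hn_pos (N : ℕ) : 0 < hn (N + 1) :=
  sum_pos (fun i _ => by positivity) (by simp)

lemma abs_hs_le (a : ℕ → ℝ) (C : ℝ) (h : ∀ i, |a i| ≤ C) (N : ℕ) : |hs a N| ≤ C * hn N := by
  rw [hs, hn, mul_sum]
  refine (abs_sum_le_sum_abs _ _).trans (sum_le_sum fun i _ => ?_)
  rw [abs_div, abs_of_pos (by positivity : (0 : ℝ) < i + 1), mul_one_div]
  exact div_le_div_of_nonneg_right (h i) (by positivity)

lemma hn_sub_le (n N : ℕ) (hn1 : 1 ≤ n) : hn (n * N) - hn N ≤ n := by
  have hle : N ≤ n * N := Nat.le_mul_of_pos_left N hn1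
  rw [hn, hn, ← sum_Ico_eq_sub _ hle]
  have h1 : ∑ i ∈ Ico N (n * N), (1 : ℝ) / (i + 1) ≤ (Ico N (n * N)).card • ((1 : ℝ) / (N + 1)) := by
    apply sum_le_card_nsmul
    intro i hi
    have : (N : ℝ) ≤ i := by exact_mod_cast (mem_Ico.mp hi).1
    apply one_div_le_one_div_of_le (by positivity) (by linarith)
  refine h1.trans ?_
  rw [Nat.card_Ico, nsmul_eq_mul, mul_one_div, div_le_iff₀ (by positivity)]
  have : ((n * N - N : ℕ) : ℝ) ≤ (n * N : ℕ) := by exact_mod_cast Nat.sub_le _ _
  push_cast at this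
  have h0 : (0 : ℝ) ≤ n := by positivity
  nlinarith

lemma hs_sub_le (b : ℕ → ℝ) (C : ℝ) (h : ∀ i, |b i| ≤ C) (N M : ℕ) (hle : N ≤ M) :
    |hs b M - hs b N| ≤ C * (hn M - hn N) := by
  rw [hs, hs, hn, hn, ← sum_Ico_eq_sub _ hle, ← sum_Ico_eq_sub _ hle, mul_sum]
  refine (abs_sum_le_sum_abs _ _).trans (sum_le_sum fun i _ => ?_)
  rw [abs_div, abs_of_pos (by positivity : (0 : ℝ) < i + 1), mul_one_div]
  exact div_le_div_of_nonneg_right (h i) (by positivity)

lemma hs_dil (a b : ℕ → ℝ) (C : ℝ) (h : ∀ i, |a i| ≤ C) (n : ℕ) (hn1 : 1 ≤ n)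
    (hb : ∀ i, b i = a (i / n)) (N : ℕ) :
    |hs b (n * N) - hs a N| ≤ C * (hn (n * N) - hn N) := by
  induction N with
  | zero => simp [hs, hn]
  | succ N ih =>
    set w : ℝ := ∑ t ∈ range n, (1 : ℝ) / ((n * N + t : ℕ) + 1) with hw
    have e1 : hn (n * (N + 1)) = hn (n * N) + w := by
      rw [hn, hn, mul_add, mul_one, sum_range_add]
    have e2 : hs b (n * (N + 1)) = hs b (n * N) + a N * w := by
      rw [hs, hs, mul_add, mul_one, sum_range_add, hw, mul_sum]
      congr 1
      refine sum_congr rfl fun t ht => ?_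
      have : (n * N + t) / n = N := by
        rw [Nat.mul_add_div (by omega), Nat.div_eq_of_lt (mem_range.mp ht), add_zero]
      rw [hb, this, mul_one_div]
    have e3 : hn (N + 1) = hn N + 1 / (N + 1) := by rw [hn, hn, sum_range_succ]
    have e4 : hs a (N + 1) = hs a N + a N * (1 / (N + 1)) := by
      rw [hs, hs, sum_range_succ, mul_one_div]
    have hw1 : 1 / ((N : ℝ) + 1) ≤ w := by
      have h1 : (range n).card • ((1 : ℝ) / (n * (N + 1))) ≤ w := by
        apply card_nsmul_le_sum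
        intro t ht
        have : (t : ℝ) + 1 ≤ n := by exact_mod_cast mem_range.mp ht
        apply one_div_le_one_div_of_le (by positivity)
        push_cast
        nlinarith
      rw [card_range, nsmul_eq_mul] at h1
      have hn0 : (n : ℝ) ≠ 0 := by positivity
      have : (n : ℝ) * (1 / (n * (N + 1))) = 1 / ((N : ℝ) + 1) := by field_simp
      linarith
    rw [e1, e2, e3, e4]
    have h5 : |a N * w - a N * (1 / (N + 1))| ≤ C * (w - 1 / (N + 1)) := by
      rw [← mul_sub, abs_mul, abs_of_nonneg (sub_nonneg.mpr hw1)]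
      exact mul_le_mul_of_nonneg_right (h N) (sub_nonneg.mpr hw1)
    calc |hs b (n * N) + a N * w - (hs a N + a N * (1 / (N + 1)))|
        = |(hs b (n * N) - hs a N) + (a N * w - a N * (1 / (N + 1)))| := by congr 1; ring
      _ ≤ |hs b (n * N) - hs a N| + |a N * w - a N * (1 / (N + 1))| := abs_add_le _ _
      _ ≤ _ := by nlinarith

/-- logarithmic means -/
noncomputable def lm (a : ℕ → ℝ) (N : ℕ) : ℝ := hs a (N + 1) / hn (N + 1)

lemma linf_bound (a : Linf) (i : ℕ) : |a i| ≤ ‖a‖ := by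
  have := a.norm_coe_le_norm i
  rwa [Real.norm_eq_abs] at this

lemma abs_lm_le (a : Linf) (N : ℕ) : |lm a N| ≤ ‖a‖ := by
  rw [lm, abs_div, abs_of_pos (hn_pos N), div_le_iff₀ (hn_pos N)]
  exact abs_hs_le a ‖a‖ (linf_bound a) _

lemma exists_ulim (b : ℕ → ℝ) (C : ℝ) (h : ∀ i, |b i| ≤ C) :
    ∃ c, Tendsto b (hyperfilter ℕ : Filter ℕ) (𝓝 c) := by
  obtain ⟨c, -, hc⟩ := (isCompact_Icc (a := -C) (b := C)).ultrafilter_le_nhds
    ((hyperfilter ℕ).map b) (by
      rw [Ultrafilter.coe_map, le_principal_iff, Filter.mem_map]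
      exact Eventually.of_forall fun i => abs_le.mp (h i))
  exact ⟨c, hc⟩

lemma tendsto_ulim (a : Linf) :
    Tendsto (lm a) (hyperfilter ℕ : Filter ℕ) (𝓝 (limUnder (hyperfilter ℕ : Filter ℕ) (lm a))) :=
  tendsto_nhds_limUnder (exists_ulim _ _ (abs_lm_le a))

/-- the generalised limit -/
noncomputable def omega0 : Linf →ₗ[ℝ] ℝ where
  toFun a := limUnder (hyperfilter ℕ : Filter ℕ) (lm a)
  map_add' a b := by
    refine tendsto_nhds_unique (tendsto_ulim (a + b)) ?_
    have : lm (a + b : Linf) = fun N => lm a N + lm b N := by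
      ext N
      simp only [lm, hs, BoundedContinuousFunction.add_apply, add_div, sum_add_distrib]
    rw [this]
    exact (tendsto_ulim a).add (tendsto_ulim b)
  map_smul' r a := by
    refine tendsto_nhds_unique (tendsto_ulim (r • a)) ?_
    have : lm (r • a : Linf) = fun N => r * lm a N := by
      ext N
      simp only [lm, hs, BoundedContinuousFunction.smul_apply, smul_eq_mul, mul_div_assoc, ← mul_sum]
    rw [this]
    exact (tendsto_ulim a).const_mul r

lemma omega0_tendsto (a : Linf) :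
    Tendsto (lm a) (hyperfilter ℕ : Filter ℕ) (𝓝 (omega0 a)) := tendsto_ulim a

lemma hyper_le : (hyperfilter ℕ : Filter ℕ) ≤ atTop := Nat.hyperfilter_le_atTop

lemma lm_tendsto (a : ℕ → ℝ) (c : ℝ) (h : Tendsto a atTop (𝓝 c)) :
    Tendsto (lm a) atTop (𝓝 c) := by
  have h1 : (fun i : ℕ => (a i - c) / (i + 1)) =o[atTop] (fun i : ℕ => (1 : ℝ) / (i + 1)) := by
    have h2 : (fun i : ℕ => a i - c) =o[atTop] (fun _ : ℕ => (1 : ℝ)) := by
      rw [Asymptotics.isLittleO_one_iff]
      simpa using h.sub_const c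
    have h3 := h2.mul_isBigO (Asymptotics.isBigO_refl (fun i : ℕ => (1 : ℝ) / (i + 1)) atTop)
    simpa [div_eq_mul_inv] using h3
  have h4 := h1.sum_range (fun i => by positivity) hn_tendsto
  have h5 := (h4.tendsto_div_nhds_zero).comp (tendsto_add_atTop_nat 1)
  have h6 : lm a = fun N => (∑ i ∈ range (N + 1), (a i - c) / (i + 1)) / hn (N + 1) + c := by
    ext N
    have hp := (hn_pos N).ne'
    have : ∑ i ∈ range (N + 1), (a i - c) / ((i : ℝ) + 1) = hs a (N + 1) - c * hn (N + 1) := by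
      rw [hs, hn, mul_sum, ← sum_sub_distrib]
      refine sum_congr rfl fun i _ => ?_
      ring
    rw [this, lm]
    field_simp
    ring
  rw [h6]
  have := h5.add_const c
  rw [zero_add] at this
  exact this

theorem omega0_genLimit : IsGenLimit omega0 where
  nonneg a ha := by
    refine ge_of_tendsto' (omega0_tendsto a) (fun N => ?_)
    exact div_nonneg (sum_nonneg fun i _ => div_nonneg (ha i) (by positivity)) (hn_pos N).le
  lim a c h := tendsto_nhds_unique (omega0_tendsto a) ((lm_tendsto a c h).mono_left hyper_le)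

theorem omega0_dilation : IsDilationInvariant omega0 := by
  intro n hn1 a b hb
  have hbb : ∀ i, |b i| ≤ ‖a‖ := fun i => by rw [hb]; exact linf_bound a _
  have key : ∀ N, |hs b N - hs a N| ≤ 2 * ‖a‖ * n := by
    intro N
    have h1 := hs_dil a b ‖a‖ (linf_bound a) n hn1 hb N
    have h2 := hs_sub_le b ‖a‖ hbb N (n * N) (Nat.le_mul_of_pos_left N hn1)
    have h3 := mul_le_mul_of_nonneg_left (hn_sub_le n N hn1) (norm_nonneg a)
    calc |hs b N - hs a N| = |(hs b (n * N) - hs a N) - (hs b (n * N) - hs b N)| := by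
          congr 1; ring
      _ ≤ |hs b (n * N) - hs a N| + |hs b (n * N) - hs b N| := abs_sub _ _
      _ ≤ _ := by linarith
  have h0 : Tendsto (fun N => lm b N - lm a N) atTop (𝓝 0) := by
    have h1 : Tendsto (fun N => 2 * ‖a‖ * n / hn (N + 1)) atTop (𝓝 0) :=
      tendsto_const_nhds.div_atTop (hn_tendsto.comp (tendsto_add_atTop_nat 1))
    refine squeeze_zero_norm (fun N => ?_) h1
    rw [lm, lm, ← sub_div, Real.norm_eq_abs, abs_div, abs_of_pos (hn_pos N)]
    exact div_le_div_of_nonneg_right (key _) (hn_pos N).le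
  have h2 := (omega0_tendsto b).sub (omega0_tendsto a)
  exact sub_eq_zero.mp (tendsto_nhds_unique h2 (h0.mono_left hyper_le))

end Pool.Agent.H760Z.Dix
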