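import Pool.Agent.H760Z.Dix.Ops
import Pool.Agent.H760Z.Dix.Limits

/-!
# The example on `ℓ²(ℕ × ℤ)`
-/

set_option autoImplicit false

open Filter Topology Finset
open scoped ENNReal BoundedContinuousFunction InnerProductSpace

namespace Pool.Agent.H760Z.Dix

/-- index set -/
abbrev I : Type := ℕ × ℤ

/-- eigenvalues of `D` -/
def rho (i : I) : ℕ := max i.1 i.2.natAbs

/-- the shift on the second coordinate -/
def sh : I ≃ I := (Equiv.refl ℕ).prodCongr (Equiv.addRight 1)

lemma sh_apply (i : I) : sh i = (i.1, i.2 + 1) := rfl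

lemma sh_symm_apply (i : I) : sh.symm i = (i.1, i.2 + -1) := rfl

/-- `(1 + ρ²)^(-p/2)` -/
noncomputable def gp (p : ℝ) (i : I) : ℝ := (1 + (rho i : ℝ) ^ 2) ^ (-(p / 2))

lemma gp_pos (p : ℝ) (i : I) : 0 < gp p i := Real.rpow_pos_of_pos (by positivity) _

lemma gp_le_one (p : ℝ) (hp : 0 ≤ p) (i : I) : gp p i ≤ 1 :=
  Real.rpow_le_one_of_one_le_of_nonpos (by nlinarith [sq_nonneg (rho i : ℝ)]) (by linarith)

lemma gp_one_rpow (p : ℝ) (i : I) : gp 1 i ^ p = gp p i := by
  rw [gp, gp, ← Real.rpow_mul (by positivity)]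
  congr 1
  ring

lemma gp_two (i : I) : gp 2 i = 1 / (1 + (rho i : ℝ) ^ 2) := by
  rw [gp]
  norm_num [Real.rpow_neg_one]

lemma gp_le (p : ℝ) (hp : 0 ≤ p) (i : I) (c : ℝ) (hc : 0 < c) (h : c ≤ 1 + (rho i : ℝ) ^ 2) :
    gp p i ≤ c ^ (-(p / 2)) :=
  Real.rpow_le_rpow_of_nonpos hc h (by linarith)

/-- the bounded function `gp p` -/
noncomputable def bp (p : ℝ) (hp : 0 ≤ p) : I →ᵇ ℂ :=
  BoundedContinuousFunction.ofNormedAddCommGroupDiscrete (fun i => (gp p i : ℂ)) 1
    (fun i => by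
      rw [Complex.norm_real, Real.norm_eq_abs, abs_of_pos (gp_pos p i)]
      exact gp_le_one p hp i)

@[simp] lemma bp_apply (p : ℝ) (hp : 0 ≤ p) (i : I) : bp p hp i = (gp p i : ℂ) := rfl

lemma norm_bp (p : ℝ) (hp : 0 ≤ p) (i : I) : ‖bp p hp i‖ = gp p i := by
  rw [bp_apply, Complex.norm_real, Real.norm_eq_abs, abs_of_pos (gp_pos p i)]

/-- `D` -/
noncomputable def DD : L2 I →ₗ.[ℂ] L2 I := diagP (fun i => (rho i : ℝ))

/-- `⟨D⟩⁻¹` -/
noncomputable def BB : L2 I →L[ℂ] L2 I := diag (bp 1 zero_le_one)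

/-- projections -/
noncomputable def PP (m : ℕ) : L2 I →L[ℂ] L2 I := diag (ind fun i : I => i.1 < m)

/-- generators -/
def gens : Set (L2 I →L[ℂ] L2 I) := insert (reOp sh) (Set.range PP)

/-- the algebra -/
noncomputable def AA : StarSubalgebra ℂ (L2 I →L[ℂ] L2 I) := StarAlgebra.adjoin ℂ gens

lemma opPow_BB (p : ℝ) (hp : 0 < p) : opPow BB p = diag (bp p hp.le) :=
  opPow_diag _ _ (gp 1) (fun _ => rfl) (fun i => (gp_pos 1 i).le) p hp
    (fun i => by rw [gp_one_rpow, bp_apply])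

/-- boxes -/
noncomputable def box (m s : ℕ) : Finset I := range m ×ˢ Ioo (-(s : ℤ)) s

lemma mem_box (m s : ℕ) (i : I) : i ∈ box m s ↔ i.1 < m ∧ i.2.natAbs < s := by
  rw [box, mem_product, mem_range, mem_Ioo]
  omega

lemma card_box (m s : ℕ) : (box m s).card = m * (2 * s - 1) := by
  rw [box, card_product, card_range, Int.card_Ioo]
  congr 1
  omega

lemma sv_bp_le (p : ℝ) (hp : 0 ≤ p) (N : ℕ) :
    sv (diag (bp p hp)) N ≤ (((N : ℝ) + 1) / 4) ^ (-(p / 2)) := by
  set s := Nat.sqrt (N / 2) with hs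
  have h1 : s * s ≤ N / 2 := Nat.sqrt_le _
  have h2 : N / 2 < (s + 1) * (s + 1) := Nat.lt_succ_sqrt _
  apply sv_diag_le _ (box s s) N
  · rw [card_box]
    have : s * (2 * s - 1) ≤ s * (2 * s) := Nat.mul_le_mul_left _ (Nat.sub_le _ _)
    have h3 : s * (2 * s) = 2 * (s * s) := by ring
    omega
  · positivity
  · intro i hi
    rw [norm_bp]
    apply gp_le p hp i _ (by positivity)
    rw [mem_box] at hi
    have h3 : s ≤ rho i := by rw [rho]; omega
    have h4 : (s : ℝ) ≤ rho i := by exact_mod_cast h3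
    have h5 : N + 1 ≤ 2 * ((s + 1) * (s + 1)) := by omega
    have h6 : (N : ℝ) + 1 ≤ 2 * ((s + 1) * (s + 1)) := by exact_mod_cast h5
    have h7 : (0 : ℝ) ≤ s := by positivity
    nlinarith [sq_nonneg ((s : ℝ) - 1), mul_self_le_mul_self h7 h4]

lemma le_sv_bp (N : ℕ) : 1 / ((N : ℝ) + 1) ≤ sv (diag (bp 2 zero_le_two)) N := by
  set s := Nat.sqrt N with hs
  have h1 : s * s ≤ N := Nat.sqrt_le _
  have h2 : N < (s + 1) * (s + 1) := Nat.lt_succ_sqrt _
  apply le_sv_diag _ (box (s + 1) (s + 1)) N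
  · rw [card_box]
    have : (s + 1) * (s + 1) ≤ (s + 1) * (2 * (s + 1) - 1) := Nat.mul_le_mul_left _ (by omega)
    omega
  · positivity
  · intro i hi
    rw [norm_bp, gp_two]
    rw [mem_box] at hi
    have h3 : rho i ≤ s := by rw [rho]; omega
    have h4 : rho i * rho i ≤ N := (Nat.mul_le_mul h3 h3).trans h1
    have h5 : (rho i : ℝ) * rho i ≤ N := by exact_mod_cast h4
    apply one_div_le_one_div_of_le (by positivity)
    nlinarith

lemma sv_P_le (m : ℕ) (hm : 0 < m) (N : ℕ) :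
    sv (diag ((ind fun i : I => i.1 < m) * bp 2 zero_le_two)) N ≤
      8 * (m : ℝ) ^ 2 * (1 / ((N : ℝ) + 1) ^ 2) := by
  set s := N / (2 * m) with hs
  have h1 : 2 * m * s ≤ N := Nat.mul_div_le _ _
  have h2 : N < 2 * m * (s + 1) := Nat.lt_mul_div_succ _ (by omega)
  apply sv_diag_le _ (box m s) N
  · rw [card_box]
    have : m * (2 * s - 1) ≤ m * (2 * s) := Nat.mul_le_mul_left _ (Nat.sub_le _ _)
    have h3 : m * (2 * s) = 2 * m * s := by ring
    omega
  · positivity
  · intro i hi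
    rw [mem_box] at hi
    by_cases h : i.1 < m
    · have h3 : s ≤ rho i := by rw [rho]; omega
      have h4 : (s : ℝ) ≤ rho i := by exact_mod_cast h3
      have h6 : (N : ℝ) + 1 ≤ 2 * m * (s + 1) := by exact_mod_cast h2
      have h7 : (0 : ℝ) ≤ s := by positivity
      have h8 : ‖((ind fun i : I => i.1 < m) * bp 2 zero_le_two) i‖ = gp 2 i := by
        rw [BoundedContinuousFunction.mul_apply, ind_apply, if_pos h, one_mul, norm_bp]
      rw [h8, gp_two, mul_one_div, div_le_div_iff₀ (by positivity) (by positivity)]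
      have h9 : ((N : ℝ) + 1) ^ 2 ≤ (2 * m * (s + 1)) ^ 2 := by gcongr
      have h10 : ((s : ℝ) + 1) ^ 2 ≤ 2 * (1 + (rho i : ℝ) ^ 2) := by
        nlinarith [sq_nonneg ((s : ℝ) - 1), mul_self_le_mul_self h7 h4]
      have h11 : (0 : ℝ) ≤ (m : ℝ) ^ 2 := by positivity
      nlinarith [mul_le_mul_of_nonneg_left h10 h11]
    · rw [BoundedContinuousFunction.mul_apply, ind_apply, if_neg h, zero_mul, norm_zero]
      positivity

lemma compact_bp (p : ℝ) (hp : 0 < p) : IsCompactOperator (diag (bp p hp.le)) := by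
  apply isCompact_diag
  intro ε hε
  have h1 : Tendsto (fun s : ℕ => ((s : ℝ) + 1) ^ (-(p / 2))) atTop (𝓝 0) :=
    (tendsto_rpow_neg_atTop (by positivity)).comp
      (tendsto_atTop_add_const_right _ _ tendsto_natCast_atTop_atTop)
  obtain ⟨s, hs⟩ := (h1.eventually (gt_mem_nhds hε)).exists
  refine ⟨box s s, fun i hi => ?_⟩
  rw [norm_bp]
  refine (gp_le p hp.le i _ (by positivity) ?_).trans hs.le
  rw [mem_box] at hi
  have h3 : s ≤ rho i := by rw [rho]; omega
  have h4 : s ≤ rho i ^ 2 := h3.trans (Nat.le_self_pow (by norm_num) _)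
  have h5 : (s : ℝ) ≤ (rho i : ℝ) ^ 2 := by exact_mod_cast h4
  linarith

lemma log_le_hn (N : ℕ) : Real.log (1 + (N : ℝ)) ≤ hn N := by
  have := log_add_one_le_harmonic N
  rw [harmonic] at this
  push_cast at this
  rw [hn, add_comm]
  simpa [one_div] using this

lemma hn_le_log (N : ℕ) : hn N ≤ 1 + Real.log N := by
  have := harmonic_le_one_add_log N
  rw [harmonic] at this
  push_cast at this
  rw [hn]
  simpa [one_div] using this

lemma log_pos' (m : ℕ) : Real.log 2 ≤ Real.log (1 + ((m + 1 : ℕ) : ℝ)) := by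
  apply Real.log_le_log (by norm_num)
  push_cast
  have : (0 : ℝ) ≤ m := by positivity
  linarith

lemma one_le_logMean (m : ℕ) : 1 ≤ logMean (diag (bp 2 zero_le_two)) m := by
  have h0 : 0 < Real.log (1 + ((m + 1 : ℕ) : ℝ)) :=
    lt_of_lt_of_le (Real.log_pos (by norm_num)) (log_pos' m)
  rw [logMean, le_div_iff₀ h0, one_mul]
  exact (log_le_hn _).trans (sum_le_sum fun k _ => le_sv_bp k)

lemma logMean_le (m : ℕ) : logMean (diag (bp 2 zero_le_two)) m ≤ 4 / Real.log 2 + 4 := by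
  have h2 : 0 < Real.log 2 := Real.log_pos (by norm_num)
  have h0 : 0 < Real.log (1 + ((m + 1 : ℕ) : ℝ)) := lt_of_lt_of_le h2 (log_pos' m)
  rw [logMean, div_le_iff₀ h0]
  have h1 : ∑ k ∈ range (m + 1), sv (diag (bp 2 zero_le_two)) k ≤ 4 * hn (m + 1) := by
    rw [hn, mul_sum]
    refine sum_le_sum fun k _ => (sv_bp_le 2 zero_le_two k).trans (le_of_eq ?_)
    norm_num [Real.rpow_neg_one]
    ring
  have h3 := hn_le_log (m + 1)
  have h4 : Real.log ((m + 1 : ℕ) : ℝ) ≤ Real.log (1 + ((m + 1 : ℕ) : ℝ)) :=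
    Real.log_le_log (by positivity) (by linarith)
  have h5 : 4 ≤ 4 / Real.log 2 * Real.log (1 + ((m + 1 : ℕ) : ℝ)) := by
    rw [div_mul_eq_mul_div, le_div_iff₀ h2]
    linarith [log_pos' m]
  nlinarith

lemma logMean_nonneg {H : Type} [NormedAddCommGroup H] [InnerProductSpace ℂ H]
    (T : H →L[ℂ] H) (m : ℕ) : 0 ≤ logMean T m :=
  div_nonneg (sum_nonneg fun k _ => sv_nonneg T k)
    ((Real.log_pos (by norm_num : (1 : ℝ) < 2)).le.trans (log_pos' m))

lemma not_summable : ¬ Summable (sv (diag (bp 2 zero_le_two))) := by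
  intro h
  have h1 : Summable (fun N : ℕ => 1 / ((N : ℝ) + 1)) :=
    Summable.of_nonneg_of_le (fun N => by positivity) le_sv_bp h
  apply Real.not_summable_one_div_natCast
  rw [← summable_nat_add_iff 1]
  simpa using h1

lemma summable_bp (p : ℝ) (hp : 2 < p) : Summable (sv (diag (bp p (by linarith)))) := by
  refine Summable.of_nonneg_of_le (sv_nonneg _) (sv_bp_le p (by linarith)) ?_
  have h1 : Summable (fun N : ℕ => (N : ℝ) ^ (-(p / 2))) :=
    Real.summable_nat_rpow.mpr (by linarith)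
  have h2 := ((summable_nat_add_iff 1).mpr h1).div_const ((4 : ℝ) ^ (-(p / 2)))
  refine h2.congr (fun N => ?_)
  rw [Real.div_rpow (by positivity) (by norm_num)]
  push_cast
  rfl

lemma star_PP (m : ℕ) : star (PP m) = PP m := by
  rw [PP, ← diag_star]
  congr 1
  ext i
  by_cases h : i.1 < m <;> simp [h]

lemma abs_rho_sub (i j : I) (h1 : j.1 = i.1) (h2 : j.2 = i.2 + 1 ∨ j.2 = i.2 + -1) :
    |(rho i : ℝ) - rho j| ≤ 1 := by
  have h3 : rho i ≤ rho j + 1 := by rw [rho, rho]; omega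
  have h4 : rho j ≤ rho i + 1 := by rw [rho, rho]; omega
  have h5 : (rho i : ℝ) ≤ rho j + 1 := by exact_mod_cast h3
  have h6 : (rho j : ℝ) ≤ rho i + 1 := by exact_mod_cast h4
  rw [abs_le]
  constructor <;> linarith

theorem spectralTriple : IsSpectralTriple AA DD BB 2 where
  countably_generated := ⟨gens, (Set.countable_range _).insert _, rfl⟩
  selfAdjoint := selfAdjoint_diagP _
  commutator := by
    apply boundedCommutator_adjoin
    rintro a (rfl | ⟨m, rfl⟩)
    · rw [star_reOp]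
      exact ⟨boundedCommutator_reOp _ _ (fun i => abs_rho_sub i _ rfl (Or.inl rfl)),
        boundedCommutator_reOp _ _ (fun i => abs_rho_sub i _ rfl (Or.inr rfl))⟩
    · rw [star_PP]
      exact ⟨boundedCommutator_diag _ _, boundedCommutator_diag _ _⟩
  bracket := by
    refine ⟨diag_nonneg _ (gp 1) (fun _ => rfl) (fun i => (gp_pos 1 i).le), fun x => ?_⟩
    have hB : ∀ i, (BB (BB x) : L2 I) i = ((1 / (1 + (rho i : ℝ) ^ 2) : ℝ) : ℂ) * x i := by
      intro i
      rw [BB, diag_apply, diag_apply, bp_apply, ← mul_assoc, ← Complex.ofReal_mul, ← gp_two,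
        ← gp_one_rpow 2, Real.rpow_two, sq]
    have h1 : BB (BB x) ∈ DD.domain := by
      rw [DD, mem_diagP]
      refine memlp_of_le x 1 (fun i => ?_)
      rw [hB, ← mul_assoc, ← Complex.ofReal_mul, norm_mul, Complex.norm_real, Real.norm_eq_abs,
        abs_of_nonneg (by positivity)]
      refine mul_le_mul_of_nonneg_right ?_ (norm_nonneg _)
      rw [mul_one_div, div_le_one (by positivity)]
      nlinarith [sq_nonneg ((rho i : ℝ) - 1)]
    have hD : ∀ i, (DD ⟨BB (BB x), h1⟩ : L2 I) i =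
        (((rho i : ℝ) * (1 / (1 + (rho i : ℝ) ^ 2)) : ℝ) : ℂ) * x i := by
      intro i
      have : (DD ⟨BB (BB x), h1⟩ : L2 I) i = ((rho i : ℝ) : ℂ) * (BB (BB x) : L2 I) i := rfl
      rw [this, hB, ← mul_assoc, ← Complex.ofReal_mul]
    have h2 : DD ⟨BB (BB x), h1⟩ ∈ DD.domain := by
      change Memℓp (fun i => ((rho i : ℝ) : ℂ) * (DD ⟨BB (BB x), h1⟩ : L2 I) i) 2
      refine memlp_of_le x 1 (fun i => ?_)
      rw [hD, ← mul_assoc, ← Complex.ofReal_mul, norm_mul, Complex.norm_real, Real.norm_eq_abs,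
        abs_of_nonneg (by positivity)]
      refine mul_le_mul_of_nonneg_right ?_ (norm_nonneg _)
      rw [← mul_assoc, mul_one_div, div_le_one (by positivity)]
      nlinarith
    refine ⟨h1, h2, ?_⟩
    ext i
    have : (DD ⟨DD ⟨BB (BB x), h1⟩, h2⟩ : L2 I) i =
        ((rho i : ℝ) : ℂ) * (DD ⟨BB (BB x), h1⟩ : L2 I) i := rfl
    rw [lp.coeFn_add, Pi.add_apply, this, hD, hB, ← mul_assoc, ← add_mul, ← Complex.ofReal_mul,
      ← Complex.ofReal_add]
    have h3 : 1 / (1 + (rho i : ℝ) ^ 2) + (rho i : ℝ) * ((rho i : ℝ) * (1 / (1 + (rho i : ℝ) ^ 2)))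
        = 1 := by
      field_simp
    rw [h3]
    simp
  compact := compact_bp 1 one_pos
  dimension := by
    constructor
    · refine ⟨zero_le_two, fun p hp => ?_⟩
      rw [opPow_BB p (by linarith)]
      exact ⟨compact_bp p (by linarith), summable_bp p hp⟩
    · rintro s ⟨-, hs⟩
      by_contra hlt
      have := (hs 2 (not_le.mp hlt)).2
      rw [opPow_BB 2 two_pos] at this
      exact not_summable this
  macaev := by
    rw [opPow_BB 2 two_pos]
    refine ⟨compact_bp 2 two_pos, 4 / Real.log 2 + 4, ?_⟩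
    rintro _ ⟨m, rfl⟩
    exact logMean_le m

lemma reOp_comm_PP (e : I ≃ I) (he : ∀ i, (e i).1 = i.1) (m : ℕ) :
    reOp e * PP m = PP m * reOp e := by
  ext x i
  simp [PP, he]

lemma gens_comm : ∀ a ∈ gens ∪ star gens, ∀ b ∈ gens ∪ star gens, a * b = b * a := by
  have hU : ∀ a ∈ gens ∪ star gens, a = reOp sh ∨ a = reOp sh.symm ∨ ∃ m, a = PP m := by
    rintro a ((rfl | ⟨m, rfl⟩) | ha)
    · exact Or.inl rfl
    · exact Or.inr (Or.inr ⟨m, rfl⟩)
    · rcases ha with h | ⟨m, h⟩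
      · right; left
        rw [← star_reOp, ← h, star_star]
      · right; right
        exact ⟨m, by rw [← star_PP, h, star_star]⟩
  have h1 : reOp sh * reOp sh.symm = reOp sh.symm * reOp sh := by
    ext x i
    simp
  have h2 : ∀ m k, PP m * PP k = PP k * PP m := by
    intro m k
    rw [PP, PP, ← diag_mul, ← diag_mul, mul_comm]
  intro a ha b hb
  rcases hU a ha with rfl | rfl | ⟨m, rfl⟩ <;> rcases hU b hb with rfl | rfl | ⟨k, rfl⟩
  · rfl
  · exact h1
  · exact reOp_comm_PP _ (fun _ => rfl) _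
  · exact h1.symm
  · rfl
  · exact reOp_comm_PP _ (fun _ => rfl) _
  · exact (reOp_comm_PP _ (fun _ => rfl) _).symm
  · exact (reOp_comm_PP _ (fun _ => rfl) _).symm
  · exact h2 m k

lemma AA_comm : ∀ a ∈ AA, ∀ b ∈ AA, a * b = b * a := by
  have h1 : AA ≤ StarSubalgebra.centralizer ℂ gens := by
    rw [AA, StarAlgebra.adjoin_le_iff]
    intro a ha
    rw [SetLike.mem_coe, StarSubalgebra.mem_centralizer_iff]
    intro g hg
    exact ⟨gens_comm g (Or.inl hg) a (Or.inl ha),
      gens_comm (star g) (Or.inr (by simpa using hg)) a (Or.inl ha)⟩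
  have h2 : AA ≤ StarSubalgebra.centralizer ℂ (AA : Set (L2 I →L[ℂ] L2 I)) := by
    conv_lhs => rw [AA]
    rw [StarAlgebra.adjoin_le_iff]
    intro a ha
    rw [SetLike.mem_coe, StarSubalgebra.mem_centralizer_iff]
    intro g hg
    have h3 := (StarSubalgebra.mem_centralizer_iff ℂ).mp (h1 hg) a ha
    have h4 := (StarSubalgebra.mem_centralizer_iff ℂ).mp (h1 (star_mem hg)) a ha
    exact ⟨h3.1.symm, h4.1.symm⟩
  intro a ha b hb
  exact ((StarSubalgebra.mem_centralizer_iff ℂ).mp (h2 hb) a ha).1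

lemma AA_subset_comm : (AA : Set (L2 I →L[ℂ] L2 I)) ⊆ Set.centralizer AA :=
  fun b hb a ha => AA_comm a ha b hb

lemma bicomm_comm : ∀ S ∈ bicommutant AA, ∀ T ∈ bicommutant AA, S * T = T * S :=
  Set.centralizer_centralizer_comm_of_comm AA_comm

lemma no_finite_rank (T : L2 I →L[ℂ] L2 I) (hT : T ∈ bicommutant AA)
    (hfin : FiniteDimensional ℂ (LinearMap.range (T : L2 I →ₗ[ℂ] L2 I))) : T = 0 := by
  have hU : reOp sh ∈ AA := StarAlgebra.subset_adjoin ℂ gens (Or.inl rfl)
  refine eq_zero_of_commute sh (fun i => ?_) T (hT _ (AA_subset_comm hU)) hfin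
  have h1 : ∀ t : ℕ, (sh^[t] i).2 = i.2 + t := by
    intro t
    induction t with
    | zero => simp
    | succ t ih => rw [Function.iterate_succ_apply', sh_apply, ih]; push_cast; ring
  intro s t hst
  have h2 : (sh^[s] i).2 = (sh^[t] i).2 := congrArg Prod.snd hst
  rw [h1, h1] at h2
  omega

lemma PP_mem (m : ℕ) : PP m ∈ bicommutant AA :=
  Set.subset_centralizer_centralizer (StarAlgebra.subset_adjoin ℂ gens (Or.inr ⟨m, rfl⟩))

lemma PP_nonneg (m : ℕ) : 0 ≤ PP m :=
  diag_nonneg _ (fun i => if i.1 < m then 1 else 0) (fun i => by by_cases h : i.1 < m <;> simp [h])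
    (fun i => by by_cases h : i.1 < m <;> simp [h])

lemma PP_mono : Monotone PP := by
  intro m k hmk
  rw [← sub_nonneg, PP, PP, ← diag_sub]
  refine diag_nonneg _ (fun i => (if i.1 < k then 1 else 0) - (if i.1 < m then 1 else 0))
    (fun i => ?_) (fun i => ?_)
  · by_cases h : i.1 < m <;> by_cases h' : i.1 < k <;> simp [h, h']
  · by_cases h : i.1 < m
    · have h' : i.1 < k := lt_of_lt_of_le h hmk
      simp [h, h']
    · by_cases h' : i.1 < k <;> simp [h, h']

lemma PP_tendsto (x : L2 I) : Tendsto (fun m => PP m x) atTop (𝓝 x) := by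
  rw [Metric.tendsto_atTop]
  intro ε hε
  have h1 := lp.hasSum_single (p := 2) (by norm_num) x
  obtain ⟨F, hF⟩ := (Metric.tendsto_nhds.mp h1 ε hε).exists
  refine ⟨F.sup (fun i => i.1) + 1, fun m hm => lt_of_le_of_lt ?_ hF⟩
  rw [dist_eq_norm, dist_eq_norm, ← one_mul ‖∑ i ∈ F, _ - x‖]
  refine norm_le_of_le zero_le_one (fun i => ?_)
  by_cases h : i.1 < m
  · simp [PP, h]
  · have hi : i ∉ F := fun hi => h (lt_of_lt_of_le (Nat.lt_succ_of_le (le_sup (f := fun i => i.1) hi)) hm)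
    have h2 : (∑ j ∈ F, (lp.single 2 j (x j) : L2 I)) i = 0 := by
      rw [lp.coeFn_sum, Finset.sum_apply]
      refine sum_eq_zero fun j hj => ?_
      rw [lp.single_apply, Pi.single_eq_of_ne]
      rintro rfl
      exact hi hj
    rw [lp.coeFn_sub, lp.coeFn_sub, Pi.sub_apply, Pi.sub_apply, h2]
    simp [PP, h]

lemma nc_PP (ω : Linf →ₗ[ℝ] ℝ) (hω : IsGenLimit ω) (m : ℕ) : ncIntegral ω BB 2 (PP m) = 0 := by
  rw [ncIntegral, opPow_BB 2 two_pos, PP, ← diag_mul]
  set T := diag ((ind fun i : I => i.1 < m) * bp 2 two_pos.le) with hT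
  have hpos : 0 ≤ T :=
    diag_nonneg _ (fun i => if i.1 < m then gp 2 i else 0)
      (fun i => by by_cases h : i.1 < m <;> simp [h])
      (fun i => by by_cases h : i.1 < m <;> simp [h, (gp_pos 2 i).le])
  have hsum : Summable (sv T) := by
    rcases Nat.eq_zero_or_pos m with rfl | hm
    · have : T = 0 := by
        ext x i
        simp [hT]
      rw [this]
      exact summable_zero.congr (fun k => (sv_zero k).symm)
    · refine Summable.of_nonneg_of_le (sv_nonneg _) (sv_P_le m hm) (Summable.mul_left _ ?_)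
      have := (summable_nat_add_iff 1).mpr (Real.summable_one_div_nat_pow.mpr (one_lt_two))
      simpa using this
  have hlim : Tendsto (logMean T) atTop (𝓝 0) := by
    have h1 : Tendsto (fun k : ℕ => Real.log (1 + ((k + 1 : ℕ) : ℝ))) atTop atTop :=
      Real.tendsto_log_atTop.comp (tendsto_atTop_add_const_left _ _
        (tendsto_natCast_atTop_atTop.comp (tendsto_add_atTop_nat 1)))
    exact (hsum.hasSum.tendsto_sum_nat.comp (tendsto_add_atTop_nat 1)).div_atTop h1
  rw [dixTrace_of_nonneg ω T hpos, dixPos]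
  split_ifs with h
  · rw [hω.lim h.choose 0 (hlim.congr fun m => (h.choose_spec m).symm)]
    simp
  · simp

lemma nc_one (ω : Linf →ₗ[ℝ] ℝ) (hω : IsGenLimit ω) : 1 ≤ (ncIntegral ω BB 2 1).re := by
  rw [ncIntegral, opPow_BB 2 two_pos, one_mul,
    dixTrace_of_nonneg ω _ (diag_nonneg _ (gp 2) (fun _ => rfl) (fun i => (gp_pos 2 i).le)),
    Complex.ofReal_re]
  let a : Linf := BoundedContinuousFunction.ofNormedAddCommGroupDiscrete
    (logMean (diag (bp 2 two_pos.le))) (4 / Real.log 2 + 4) (fun m => by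
      rw [Real.norm_eq_abs, abs_of_nonneg (logMean_nonneg _ m)]
      exact logMean_le m)
  rw [dixPos_eq ω _ a (fun _ => rfl)]
  have h2 : ω 1 = 1 := hω.lim 1 1 tendsto_const_nhds
  have h3 := hω.nonneg (a - 1) (fun i => sub_nonneg.mpr (one_le_logMean i))
  rw [map_sub, h2] at h3
  linarith

theorem not_normal (ω : Linf →ₗ[ℝ] ℝ) (hω : IsGenLimit ω) :
    ¬ IsNormalOn (bicommutant AA) (ncIntegral ω BB 2) := by
  intro h
  have h1 := h ℕ PP 1 PP_mem (Set.one_mem_centralizer) PP_nonneg PP_mono PP_tendsto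
  have h2 : (0 : ℝ) ∈ upperBounds (Set.range fun m => (ncIntegral ω BB 2 (PP m)).re) := by
    rintro _ ⟨m, rfl⟩
    simp [nc_PP ω hω m]
  have h3 := h1.2 h2
  linarith [nc_one ω hω]

theorem separable_L2 : TopologicalSpace.SeparableSpace (L2 I) := by
  let b : HilbertBasis I ℂ (L2 I) := HilbertBasis.ofRepr (LinearIsometryEquiv.refl ℂ _)
  have h1 : TopologicalSpace.IsSeparable
      ((Submodule.span ℂ (Set.range b)).topologicalClosure : Set (L2 I)) :=
    ((Set.countable_range b).isSeparable.span).closure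
  rw [b.dense_span] at h1
  exact TopologicalSpace.isSeparable_univ_iff.mp h1

end Pool.Agent.H760Z.Dix
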