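import Pool.Agent.H760Z.Dix.Diag

/-!
# Unbounded diagonal operators, reindexing operators, bounded commutators
-/

set_option autoImplicit false

open Filter Topology
open scoped ENNReal BoundedContinuousFunction InnerProductSpace

namespace Pool.Agent.H760Z.Dix

section comm

variable {H : Type} [NormedAddCommGroup H] [InnerProductSpace ℂ H] [CompleteSpace H]
  {D : H →ₗ.[ℂ] H}

omit [CompleteSpace H] in
lemma BoundedCommutator.add {a b : H →L[ℂ] H} (ha : BoundedCommutator D a)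
    (hb : BoundedCommutator D b) : BoundedCommutator D (a + b) := by
  obtain ⟨Ca, ha⟩ := ha
  obtain ⟨Cb, hb⟩ := hb
  refine ⟨Ca + Cb, fun x => ?_⟩
  obtain ⟨h1, h2⟩ := ha x
  obtain ⟨h3, h4⟩ := hb x
  refine ⟨D.domain.add_mem h1 h3, ?_⟩
  have e : D ⟨(a + b) x, D.domain.add_mem h1 h3⟩ = D ⟨a x, h1⟩ + D ⟨b x, h3⟩ := by
    rw [← D.map_add]; rfl
  rw [e]
  calc ‖D ⟨a x, h1⟩ + D ⟨b x, h3⟩ - (a + b) (D x)‖
      = ‖(D ⟨a x, h1⟩ - a (D x)) + (D ⟨b x, h3⟩ - b (D x))‖ := by
        congr 1; simp only [add_apply]; abel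
    _ ≤ _ := norm_add_le _ _
    _ ≤ _ := by linarith

omit [CompleteSpace H] in
lemma BoundedCommutator.mul {a b : H →L[ℂ] H} (ha : BoundedCommutator D a)
    (hb : BoundedCommutator D b) : BoundedCommutator D (a * b) := by
  obtain ⟨Ca, ha⟩ := ha
  obtain ⟨Cb, hb⟩ := hb
  refine ⟨|Ca| * ‖b‖ + ‖a‖ * Cb, fun x => ?_⟩
  obtain ⟨h3, h4⟩ := hb x
  obtain ⟨h1, h2⟩ := ha ⟨b x, h3⟩
  refine ⟨h1, ?_⟩
  have h5 : ‖a (D ⟨b x, h3⟩ - b (D x))‖ ≤ ‖a‖ * (Cb * ‖(x : H)‖) :=
    (a.le_opNorm _).trans (mul_le_mul_of_nonneg_left h4 (norm_nonneg _))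
  have h6 : Ca * ‖b x‖ ≤ |Ca| * (‖b‖ * ‖(x : H)‖) :=
    mul_le_mul (le_abs_self _) (b.le_opNorm _) (norm_nonneg _) (abs_nonneg _)
  calc ‖D ⟨(a * b) x, h1⟩ - (a * b) (D x)‖
      = ‖(D ⟨a (b x), h1⟩ - a (D ⟨b x, h3⟩)) + a (D ⟨b x, h3⟩ - b (D x))‖ := by
        congr 1
        rw [map_sub]
        simp only [mul_apply_eq_comp]
        abel
    _ ≤ _ := norm_add_le _ _
    _ ≤ _ := by
        have h2' : ‖D ⟨a (b x), h1⟩ - a (D ⟨b x, h3⟩)‖ ≤ Ca * ‖b x‖ := h2
        nlinarith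

lemma boundedCommutator_scalar (r : ℂ) :
    BoundedCommutator D (algebraMap ℂ (H →L[ℂ] H) r) := by
  refine ⟨0, fun x => ?_⟩
  have e : ∀ y : H, algebraMap ℂ (H →L[ℂ] H) r y = r • y := fun y => by
    simp [Algebra.algebraMap_eq_smul_one]
  have h1 : algebraMap ℂ (H →L[ℂ] H) r x ∈ D.domain := by
    rw [e]; exact D.domain.smul_mem r x.2
  refine ⟨h1, ?_⟩
  have : (⟨_, h1⟩ : D.domain) = r • x := Subtype.ext (e x)
  rw [this, D.map_smul, e]
  simp

lemma boundedCommutator_adjoin (s : Set (H →L[ℂ] H))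
    (hs : ∀ a ∈ s, BoundedCommutator D a ∧ BoundedCommutator D (star a)) :
    ∀ a ∈ StarAlgebra.adjoin ℂ s, BoundedCommutator D a := by
  intro a ha
  suffices BoundedCommutator D a ∧ BoundedCommutator D (star a) from this.1
  induction ha using StarAlgebra.adjoin_induction with
  | mem x hx => exact hs x hx
  | algebraMap r =>
    refine ⟨boundedCommutator_scalar r, ?_⟩
    rw [← algebraMap_star_comm]
    exact boundedCommutator_scalar _
  | add x y _ _ hx hy => exact ⟨hx.1.add hy.1, by rw [star_add]; exact hx.2.add hy.2⟩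
  | mul x y _ _ hx hy => exact ⟨hx.1.mul hy.1, by rw [star_mul]; exact hy.2.mul hx.2⟩
  | star x _ hx => exact ⟨hx.2, by rw [star_star]; exact hx.1⟩

lemma parts_of_nonneg {A : Type} [CStarAlgebra A] [PartialOrder A] [StarOrderedRing A] (T : A)
    (hT : 0 ≤ T) : rePart T = T ∧ imPart T = 0 ∧ posP T = T ∧ negP T = 0 := by
  have hsa : IsSelfAdjoint T := IsSelfAdjoint.of_nonneg hT
  refine ⟨hsa.coe_realPart, ?_, (CFC.posPart_eq_self T).mpr hT,
    (CFC.negPart_eq_zero_iff T hsa).mpr hT⟩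
  rw [imPart, hsa.imaginaryPart]; rfl

omit [CompleteSpace H] in
lemma dixPos_eq (ω : Linf →ₗ[ℝ] ℝ) (T : H →L[ℂ] H) (a : Linf) (ha : ∀ m, a m = logMean T m) :
    dixPos ω T = ω a := by
  have h : ∃ a : Linf, ∀ m, a m = logMean T m := ⟨a, ha⟩
  rw [dixPos, dif_pos h]
  congr 1
  ext m
  rw [h.choose_spec, ha]

lemma dixTrace_of_nonneg (ω : Linf →ₗ[ℝ] ℝ) (T : H →L[ℂ] H) (hT : 0 ≤ T) :
    dixTrace ω T = dixPos ω T := by
  have h0 : dixPos ω (0 : H →L[ℂ] H) = 0 := by
    rw [dixPos_eq ω 0 0 (fun m => by simp [logMean, sv_zero]), map_zero]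
  obtain ⟨h1, h2, h3, h4⟩ := parts_of_nonneg T hT
  obtain ⟨-, -, h5, h6⟩ := parts_of_nonneg (0 : H →L[ℂ] H) le_rfl
  rw [dixTrace, h1, h2, dixSA, dixSA, h3, h4, h5, h6, h0]
  simp

end comm

section unb

variable {ι : Type}

/-- the unbounded diagonal operator with real entries -/
noncomputable def diagP (l : ι → ℝ) : L2 ι →ₗ.[ℂ] L2 ι where
  domain :=
    { carrier := {x | Memℓp (fun i => (l i : ℂ) * x i) 2}
      add_mem' := fun {x y} hx hy => by
        have := Memℓp.add hx hy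
        simpa [mul_add, Pi.add_def] using this
      zero_mem' := by
        have : Memℓp (0 : ι → ℂ) 2 := zero_memℓp
        simpa [Pi.zero_def] using this
      smul_mem' := fun c x hx => by
        have := Memℓp.const_smul hx c
        simpa [Pi.smul_def, mul_left_comm] using this }
  toFun :=
    { toFun := fun x => ⟨fun i => (l i : ℂ) * (x : L2 ι) i, x.2⟩
      map_add' := fun x y => by
        ext i
        simp only [Submodule.coe_add, lp.coeFn_add, Pi.add_apply, mul_add]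
      map_smul' := fun c x => by
        ext i
        simp [mul_left_comm] }

lemma mem_diagP (l : ι → ℝ) (x : L2 ι) :
    x ∈ (diagP l).domain ↔ Memℓp (fun i => (l i : ℂ) * x i) 2 := Iff.rfl

@[simp] lemma diagP_apply (l : ι → ℝ) (x : (diagP l).domain) (i : ι) :
    (diagP l x : L2 ι) i = (l i : ℂ) * (x : L2 ι) i := rfl

variable [DecidableEq ι]

lemma single_mem_diagP (l : ι → ℝ) (i : ι) (c : ℂ) :
    (lp.single 2 i c : L2 ι) ∈ (diagP l).domain := by
  rw [mem_diagP]
  refine memlp_of_le (lp.single 2 i c : L2 ι) |l i| (fun j => ?_)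
  by_cases h : j = i
  · subst h; simp
  · simp [lp.single_apply, Pi.single_eq_of_ne h]

lemma dense_diagP (l : ι → ℝ) : Dense ((diagP l).domain : Set (L2 ι)) := by
  intro x
  have := lp.hasSum_single (p := 2) (by norm_num) x
  refine mem_closure_of_tendsto this (Eventually.of_forall fun F => ?_)
  exact Submodule.sum_mem _ (fun i _ => single_mem_diagP l i _)

lemma selfAdjoint_diagP (l : ι → ℝ) : IsSelfAdjoint (diagP l) := by
  rw [LinearPMap.isSelfAdjoint_def]
  have hd := dense_diagP l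
  have hsym : (diagP l).IsFormalAdjoint (diagP l) := by
    intro x y
    rw [inner_eq_tsum', inner_eq_tsum']
    congr 1
    ext i
    simp
    ring
  apply le_antisymm _ (hsym.le_adjoint hd)
  have key : ∀ (y : (diagP l).adjoint.domain) (i : ι),
      ((diagP l).adjoint y : L2 ι) i = (l i : ℂ) * (y : L2 ι) i := by
    intro y i
    have h := LinearPMap.adjoint_isFormalAdjoint hd y ⟨lp.single 2 i 1, single_mem_diagP l i 1⟩
    have h2 : (diagP l ⟨lp.single 2 i 1, single_mem_diagP l i 1⟩ : L2 ι) =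
        lp.single 2 i (l i : ℂ) := by
      ext j
      by_cases hj : j = i
      · subst hj; simp
      · simp [lp.single_apply, Pi.single_eq_of_ne hj]
    rw [h2] at h
    simp only [lp.inner_single_right] at h
    have h3 := congrArg (starRingEnd ℂ) h
    simpa using h3
  refine ⟨fun y hy => ?_, fun y z hyz => ?_⟩
  · rw [mem_diagP]
    have := lp.memℓp ((diagP l).adjoint ⟨y, hy⟩ : L2 ι)
    convert this using 1
    ext i
    exact (key ⟨y, hy⟩ i).symm
  · ext i
    rw [key, diagP_apply, hyz]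

end unb

section reindex

variable {ι : Type}

lemma memlp_reindex (e : ι ≃ ι) (x : L2 ι) : Memℓp (fun i => x (e i)) 2 := by
  refine memℓp_gen ?_
  exact (e.summable_iff (f := fun i => ‖x i‖ ^ (2 : ℝ≥0∞).toReal)).mpr
    ((lp.memℓp x).summable (by norm_num))

/-- reindexing, linear -/
noncomputable def reL (e : ι ≃ ι) : L2 ι →ₗ[ℂ] L2 ι where
  toFun x := ⟨fun i => x (e i), memlp_reindex e x⟩
  map_add' x y := by ext i; simp only [lp.coeFn_add, Pi.add_apply]
  map_smul' c x := by ext i; simp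

lemma norm_reL (e : ι ≃ ι) (x : L2 ι) : ‖reL e x‖ = ‖x‖ := by
  rw [lp.norm_eq_tsum_rpow (by norm_num), lp.norm_eq_tsum_rpow (by norm_num)]
  congr 1
  exact e.tsum_eq (fun i => ‖x i‖ ^ (2 : ℝ≥0∞).toReal)

/-- reindexing operator -/
noncomputable def reOp (e : ι ≃ ι) : L2 ι →L[ℂ] L2 ι :=
  (reL e).mkContinuous 1 (fun x => by rw [norm_reL, one_mul])

@[simp] lemma reOp_apply (e : ι ≃ ι) (x : L2 ι) (i : ι) : (reOp e x : ι → ℂ) i = x (e i) := rfl

lemma norm_reOp (e : ι ≃ ι) (x : L2 ι) : ‖reOp e x‖ = ‖x‖ := norm_reL e x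

lemma star_reOp (e : ι ≃ ι) : star (reOp e) = reOp e.symm := by
  symm
  rw [ContinuousLinearMap.star_eq_adjoint, ContinuousLinearMap.eq_adjoint_iff]
  intro x y
  rw [inner_eq_tsum', inner_eq_tsum', ← e.tsum_eq]
  simp

lemma boundedCommutator_reOp (l : ι → ℝ) (e : ι ≃ ι) (h : ∀ i, |l i - l (e i)| ≤ 1) :
    BoundedCommutator (diagP l) (reOp e) := by
  refine ⟨1, fun x => ?_⟩
  have h1 : Memℓp (fun i => ((l i - l (e i) : ℝ) : ℂ) * (x : L2 ι) (e i)) 2 := by
    refine memlp_of_le (reOp e x) 1 (fun i => ?_)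
    rw [norm_mul, Complex.norm_real, Real.norm_eq_abs, reOp_apply]
    exact mul_le_mul_of_nonneg_right (h i) (norm_nonneg _)
  have h2 : reOp e x ∈ (diagP l).domain := by
    rw [mem_diagP]
    have := h1.add (lp.memℓp (reOp e (diagP l x)))
    convert this using 1
    ext i
    simp
    ring
  refine ⟨h2, ?_⟩
  rw [← norm_reOp e (x : L2 ι)]
  refine norm_le_of_le zero_le_one (fun i => ?_)
  have : (diagP l ⟨reOp e x, h2⟩ - reOp e (diagP l x) : L2 ι) i =
      ((l i - l (e i) : ℝ) : ℂ) * (x : L2 ι) (e i) := by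
    simp
    ring
  rw [this, norm_mul, Complex.norm_real, Real.norm_eq_abs, reOp_apply]
  exact mul_le_mul_of_nonneg_right (h i) (norm_nonneg _)

lemma boundedCommutator_diag [TopologicalSpace ι] (l : ι → ℝ) (d : ι →ᵇ ℂ) :
    BoundedCommutator (diagP l) (diag d) := by
  refine ⟨0, fun x => ?_⟩
  have h2 : diag d x ∈ (diagP l).domain := by
    rw [mem_diagP]
    have := lp.memℓp (diag d (diagP l x))
    convert this using 1
    ext i
    simp
    ring
  refine ⟨h2, ?_⟩
  have : (diagP l ⟨diag d x, h2⟩ - diag d (diagP l x) : L2 ι) = 0 := by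
    ext i
    simp
    ring
  rw [this]
  simp

/-- a finite rank operator commuting with a reindexing operator whose orbits are infinite is zero -/
lemma eq_zero_of_commute (e : ι ≃ ι) (he : ∀ i, Function.Injective fun t : ℕ => e^[t] i)
    (T : L2 ι →L[ℂ] L2 ι) (hT : reOp e * T = T * reOp e)
    (hfin : FiniteDimensional ℂ (LinearMap.range (T : L2 ι →ₗ[ℂ] L2 ι))) : T = 0 := by
  by_contra hne
  set V := LinearMap.range (T : L2 ι →ₗ[ℂ] L2 ι) with hV
  have hinv : ∀ y ∈ V, (reOp e : L2 ι →ₗ[ℂ] L2 ι) y ∈ V := by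
    rintro _ ⟨x, rfl⟩
    exact ⟨reOp e x, (congrArg (fun S : L2 ι →L[ℂ] L2 ι => S x) hT).symm⟩
  have hnt : Nontrivial V := by
    rw [Submodule.nontrivial_iff_ne_bot]
    intro hb
    apply hne
    ext1 x
    have : T x ∈ V := ⟨x, rfl⟩
    rw [hb] at this
    simpa using this
  obtain ⟨c, hc⟩ := Module.End.exists_eigenvalue ((reOp e : L2 ι →ₗ[ℂ] L2 ι).restrict hinv)
  obtain ⟨y, hy⟩ := hc.exists_hasEigenvector
  have h1 : reOp e (y : L2 ι) = c • (y : L2 ι) := congrArg Subtype.val hy.apply_eq_smul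
  have hy0 : (y : L2 ι) ≠ 0 := fun h => hy.2 (Subtype.ext h)
  have hc1 : ‖c‖ = 1 := by
    have := norm_reOp e (y : L2 ι)
    rw [h1, norm_smul] at this
    exact mul_right_cancel₀ (norm_ne_zero_iff.mpr hy0) (by rw [this, one_mul])
  have h2 : ∀ i, ‖(y : L2 ι) (e i)‖ = ‖(y : L2 ι) i‖ := by
    intro i
    have := congrArg (fun z : L2 ι => ‖z i‖) h1
    simpa [hc1] using this
  have h3 : ∀ (i : ι) (t : ℕ), ‖(y : L2 ι) (e^[t] i)‖ = ‖(y : L2 ι) i‖ := by
    intro i t
    induction t with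
    | zero => rfl
    | succ t ih => rw [Function.iterate_succ_apply', h2, ih]
  apply hy0
  ext i
  have hs := ((lp.memℓp (y : L2 ι)).summable (by norm_num)).comp_injective (he i)
  have h4 := hs.tendsto_atTop_zero
  have h5 : ((fun i => ‖(y : L2 ι) i‖ ^ (2 : ℝ≥0∞).toReal) ∘ fun t : ℕ => e^[t] i) =
      fun _ => ‖(y : L2 ι) i‖ ^ (2 : ℝ≥0∞).toReal := by
    ext t
    simp only [Function.comp, h3]
  rw [h5] at h4
  have h6 := tendsto_nhds_unique tendsto_const_nhds h4
  simpa using h6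

end reindex

end Pool.Agent.H760Z.Dix
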